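import Pool.Agent.helper97.PB.APP
import Pool.Agent.helper32.PB.CMP
import Pool.Agent.helper79.PB.CLP
import Pool.Agent.helper30.PB.SUB
import Pool.Agent.helper53.PB.DNF
import Pool.Agent.helper25.PB.LAF
import Pool.Agent.helper13.PB.RST
import Pool.Agent.helper99.PB.GS1
import Pool.Agent.helper49.PB.GS2
import Pool.Agent.helper32.PB.GS3
import Pool.Agent.helper74.PB.SPF
import Pool.Agent.helper68.PB.PCN
import Pool.Agent.helper53.PC.CLV
import Pool.Agent.helper53.PC.MNC
import Pool.Agent.helper53.PC.EXM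
import Pool.Agent.helper22.PC.CDB
import Pool.Agent.helper32.PC.CLE
import Pool.Agent.helper22.PC.CLC
import Pool.Agent.helper64.PC.GP1
import Pool.Agent.helper73.PC.GP2
import Pool.Agent.helper80.PC.GPE
import Pool.Agent.helper80.PC.APM
import Pool.Agent.helper22.PC.ABS
import Pool.Agent.helper25.PC.PCR
import Pool.Agent.helper73.PC.IN1
import Pool.Agent.helper77.PC.IN2
import Pool.Agent.helper30.PC.SMM
import Pool.Agent.helper11.PC.GRM
import Pool.Agent.helper89.PC.HTM
import Pool.Agent.helper63.PC.SUQ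
import Pool.Agent.helper63.PC.REJ
import Pool.Agent.helper63.PC.TRI
import Pool.Agent.helper40.PC.SYK
import Pool.Agent.helper49.PC.NUM
import Pool.Agent.helper82.PC.BSM

/-!
# MP_069684_lc: the base function (from the rows pc:*), without the rest of AllBases
-/

set_option autoImplicit false

namespace Pool.Agent.NG

open Pool.Agent.PB Pool.Agent.PC

theorem qAPP : APP_stmt := APP

theorem qSUB : SUB_stmt := SUB

theorem qCMP : CMP_stmt := CMP qAPP qSUB

theorem qCLP : CLP_stmt := CLP qCMP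

theorem qDNF : DNF_stmt := DNF qCLP

theorem qRST : RST_stmt := RST qSUB

theorem qLAF : LAF_stmt := LAF

theorem qGS1 : GS1_stmt := GS1

theorem qGS2 : GS2_stmt := GS2 qGS1 qSUB qAPP qDNF

theorem qGS3 : GS3_stmt := GS3 qGS2 qLAF qRST qSUB

theorem qSPF : SPF_stmt := SPF

theorem qPCN : PCN_stmt := PCN

theorem qCLV : CLV_stmt := CLV

theorem qMNC : MNC_stmt := MNC qSPF

theorem qEXM : EXM_stmt := EXM

theorem qCDB : CDB_stmt := CDB

theorem qCLE : CLE_stmt := CLE

theorem qCLC : CLC_stmt := CLC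

theorem qGP1 : GP1_stmt := GP1

theorem qGP2 : GP2_stmt := GP2 qMNC

theorem qGPE : GPE_stmt := GPE qGP1 qGP2 qEXM

theorem qAPM : APM_stmt := APM qCLV qCDB qCLE qCLC qGPE

theorem qABS : ABS_stmt := ABS qAPM

theorem qPCR : PCR_stmt := PCR qPCN

theorem qIN1 : IN1_stmt := IN1

theorem qIN2 : IN2_stmt := IN2 qIN1

theorem qSMM : SMM_stmt := SMM

theorem qGRM : GRM_stmt := GRM

theorem qHTM : HTM_stmt := HTM

theorem qSUQ : SUQ_stmt := SUQ

theorem qREJ : REJ_stmt := REJ qSUQ

theorem qTRI : TRI_stmt := TRI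

theorem qSYK : SYK_stmt := SYK qPCR qIN2 qSMM qGRM qHTM

theorem qNUM : NUM_stmt := NUM

theorem qBSM : BSM_stmt := BSM qABS qSYK qNUM qREJ qTRI qGS3

end Pool.Agent.NG
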