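import Pool.Agent.helper64.NG.Poly

/-!
# MP_069684_lc: the lower bound for the language in P/Poly
-/

set_option autoImplicit false

namespace Pool.Agent.NG

open Pool.Agent.PB Pool.Agent.PC Pool.Agent.LNB Pool.Agent.helper55.NT

lemma lg_pos' (n : ℕ) : 1 ≤ lg n := by
  unfold lg
  exact Nat.log_pos (by norm_num) (by omega)

lemma sc_le {M n : ℕ} (h : M ≤ n) : sc M ≤ 2 * lg n := by
  have h1 : Nat.log 2 M ≤ lg n := by
    unfold lg
    exact Nat.log_mono_right (by omega)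
  have h2 := lg_pos' n
  unfold sc
  omega

lemma sc_pos (M : ℕ) : 1 ≤ sc M := by unfold sc; omega

/-- The choice of the parameters. -/
lemma params {M n K m : ℕ} (hMn : M ≤ n) (hK : 1 ≤ K) (hm : 1 ≤ m)
    (h : 2 ^ 399 * lg n ^ 20 * (K * m) ≤ M) :
    ∃ e r, Ok e r ∧ e < sc M ∧ r < sc M ∧ K * nB e r ≤ wd M ∧
      max m 2 ≤ 2 ^ (6 * e * (r - 1)) ∧ 6 ≤ e ∧ M ≤ (2 ^ (e - 1)) ^ 20 * (K * m) := by
  obtain ⟨m', hm'⟩ : ∃ m', m' = max m 2 := ⟨_, rfl⟩
  have hm2 : 2 ≤ m' := by rw [hm']; exact le_max_right _ _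
  have hm2m : m' ≤ 2 * m := by
    rw [hm']
    exact max_le (by omega) (by omega)
  have hKm : 0 < K * m' := Nat.mul_pos hK (by omega)
  obtain ⟨Q, hQ⟩ : ∃ Q, Q = wd M / (K * m') := ⟨_, rfl⟩
  obtain ⟨e, he⟩ : ∃ e, e = Nat.log (2 ^ 18) Q := ⟨_, rfl⟩
  have hsc := sc_pos M
  have hscl := sc_le hMn
  -- upper bound for M
  have hQ1 : Q < (2 ^ 18) ^ (e + 1) := by
    rw [he]
    exact Nat.lt_pow_succ_log_self (by norm_num) _
  have hwd : wd M < (2 ^ 18) ^ (e + 1) * (K * m') := by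
    have h1 : wd M / (K * m') < (2 ^ 18) ^ (e + 1) := by rw [← hQ]; exact hQ1
    rwa [Nat.div_lt_iff_lt_mul hKm] at h1
  have hM1 : M < (wd M + 1) * (sc M * sc M) := by
    have := Nat.lt_mul_div_succ M (show 0 < sc M * sc M by positivity)
    unfold wd
    rw [mul_comm]
    exact this
  have hM2 : M < (2 ^ 18) ^ (e + 1) * (K * m') * (sc M * sc M) :=
    hM1.trans_le (Nat.mul_le_mul_right _ hwd)
  have hM3 : M < 2 ^ 19 * (2 ^ e) ^ 18 * (K * m) * (sc M * sc M) := by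
    refine hM2.trans_le (Nat.mul_le_mul_right _ ?_)
    calc (2 ^ 18) ^ (e + 1) * (K * m') ≤ (2 ^ 18) ^ (e + 1) * (K * (2 * m)) :=
          Nat.mul_le_mul_left _ (Nat.mul_le_mul_left _ hm2m)
      _ = 2 ^ 19 * (2 ^ e) ^ 18 * (K * m) := by
          rw [← pow_mul, ← pow_mul]
          have e1 : 2 ^ (18 * (e + 1)) = 2 ^ 18 * 2 ^ (e * 18) := by
            rw [← pow_add]; congr 1; ring
          have e2 : (2 : ℕ) ^ 19 = 2 * 2 ^ 18 := by norm_num
          rw [e1, e2]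
          ring
  -- e is large
  have hbig : 2 ^ 20 * sc M ≤ 2 ^ e := by
    by_contra hcon
    push Not at hcon
    have h1 : (2 ^ e) ^ 18 ≤ (2 ^ 20 * sc M) ^ 18 := Nat.pow_le_pow_left hcon.le 18
    have h2 : M < 2 ^ 399 * lg n ^ 20 * (K * m) := by
      refine hM3.trans_le ?_
      calc 2 ^ 19 * (2 ^ e) ^ 18 * (K * m) * (sc M * sc M)
          ≤ 2 ^ 19 * (2 ^ 20 * sc M) ^ 18 * (K * m) * (sc M * sc M) :=
            Nat.mul_le_mul_right _ (Nat.mul_le_mul_right _ (Nat.mul_le_mul_left _ h1))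
        _ = 2 ^ 379 * (sc M) ^ 20 * (K * m) := by
            rw [mul_pow, ← pow_mul]
            have e2 : (2 : ℕ) ^ 379 = 2 ^ 19 * 2 ^ (20 * 18) := by
              rw [← pow_add]
            rw [e2]
            ring
        _ ≤ 2 ^ 379 * (2 * lg n) ^ 20 * (K * m) :=
            Nat.mul_le_mul_right _ (Nat.mul_le_mul_left _ (Nat.pow_le_pow_left hscl 20))
        _ = 2 ^ 399 * lg n ^ 20 * (K * m) := by
            rw [mul_pow]
            have e2 : (2 : ℕ) ^ 399 = 2 ^ 379 * 2 ^ 20 := by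
              rw [← pow_add]
            rw [e2]
            ring
    omega
  have he20 : 20 ≤ e := by
    by_contra hcon
    push Not at hcon
    have h1 : 2 ^ e < 2 ^ 20 := Nat.pow_lt_pow_right (by norm_num) hcon
    have h2 : 2 ^ 20 * 1 ≤ 2 ^ 20 * sc M := Nat.mul_le_mul_left _ hsc
    omega
  -- r
  obtain ⟨t, ht⟩ : ∃ t, t = Nat.clog (2 ^ (6 * e)) m' := ⟨_, rfl⟩
  have hb : 1 < 2 ^ (6 * e) := Nat.one_lt_pow (by omega) (by norm_num)
  have ht1 : m' ≤ (2 ^ (6 * e)) ^ t := by rw [ht]; exact Nat.le_pow_clog hb _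
  have ht2 : (2 ^ (6 * e)) ^ (t - 1) < m' := by
    rw [ht]
    exact Nat.pow_pred_clog_lt_self hb (by omega)
  have ht0 : 1 ≤ t := by
    rcases Nat.eq_zero_or_pos t with h0 | h0
    · rw [h0, pow_zero] at ht1
      omega
    · exact h0
  have hnB : nB e (t + 1) ≤ m' * (2 ^ 18) ^ e := by
    unfold nB
    have e1 : 2 ^ (6 * e * (t + 1 + 1)) = (2 ^ (6 * e)) ^ (t - 1) * (2 ^ 18) ^ e := by
      rw [← pow_mul, ← pow_mul, ← pow_add]
      congr 1
      obtain ⟨t', rfl⟩ : ∃ t', t = t' + 1 := ⟨t - 1, by omega⟩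
      simp only [Nat.add_sub_cancel]
      ring
    rw [e1]
    exact Nat.mul_le_mul_right _ ht2.le
  have hQ0 : Q ≠ 0 := by
    intro h0
    rw [h0] at he
    simp at he
    omega
  have hQ2 : (2 ^ 18) ^ e ≤ Q := by
    rw [he]
    exact Nat.pow_log_le_self _ hQ0
  have hKn : K * nB e (t + 1) ≤ wd M := by
    calc K * nB e (t + 1) ≤ K * (m' * (2 ^ 18) ^ e) := Nat.mul_le_mul_left _ hnB
      _ ≤ K * (m' * Q) := Nat.mul_le_mul_left _ (Nat.mul_le_mul_left _ hQ2)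
      _ = (K * m') * Q := by ring
      _ ≤ wd M := by rw [hQ]; exact Nat.mul_div_le _ _
  have hlog : 6 * e * (t + 1 + 1) ≤ Nat.log 2 M := by
    have h1 : 1 * nB e (t + 1) ≤ K * nB e (t + 1) := Nat.mul_le_mul_right _ hK
    have h2 : wd M ≤ M := Nat.div_le_self _ _
    have h3 : 2 ^ (6 * e * (t + 1 + 1)) ≤ M := by
      have h4 : nB e (t + 1) ≤ M := by omega
      exact h4
    exact Nat.le_log_of_pow_le (by norm_num) h3
  have hlsc : Nat.log 2 M < sc M := by unfold sc; omega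
  refine ⟨e, t + 1, ⟨by omega, by omega, ?_⟩, ?_, ?_, hKn, ?_, by omega, ?_⟩
  · have h1 : 32 * e * (t + 1) ≤ 6 * (6 * e * (t + 1 + 1)) := by nlinarith
    have h2 : 6 * sc M ≤ 2 ^ 20 * sc M := Nat.mul_le_mul_right _ (by norm_num)
    omega
  · have h1 : e ≤ 6 * e * (t + 1 + 1) := by nlinarith
    omega
  · have h1 : t + 1 ≤ 6 * e * (t + 1 + 1) := by nlinarith
    omega
  · rw [← hm']
    have e1 : 2 ^ (6 * e * (t + 1 - 1)) = (2 ^ (6 * e)) ^ t := by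
      rw [Nat.add_sub_cancel, ← pow_mul]
    rw [e1]
    exact ht1
  · obtain ⟨g, hg⟩ : ∃ g, g = 2 ^ (e - 1) := ⟨_, rfl⟩
    have hg2 : 2 ^ e = 2 * g := by
      rw [hg, ← pow_succ']
      congr 1
      omega
    rw [← hg]
    rw [hg2] at hbig hM3
    have h1 : 2 ^ 19 * sc M ≤ g := by
      have : (2 : ℕ) ^ 20 = 2 * 2 ^ 19 := by norm_num
      rw [this, mul_assoc] at hbig
      omega
    have h2 : (2 ^ 19 * sc M) * (2 ^ 19 * sc M) ≤ g * g := Nat.mul_le_mul h1 h1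
    have h3 : 2 ^ 38 * M ≤ 2 ^ 38 * (g ^ 20 * (K * m)) := by
      calc 2 ^ 38 * M ≤ 2 ^ 38 * (2 ^ 19 * (2 * g) ^ 18 * (K * m) * (sc M * sc M)) :=
            Nat.mul_le_mul_left _ hM3.le
        _ = 2 ^ 37 * g ^ 18 * (K * m) * ((2 ^ 19 * sc M) * (2 ^ 19 * sc M)) := by ring
        _ ≤ 2 ^ 37 * g ^ 18 * (K * m) * (g * g) := Nat.mul_le_mul_left _ h2
        _ = 2 ^ 37 * (g ^ 20 * (K * m)) := by ring
        _ ≤ 2 ^ 38 * (g ^ 20 * (K * m)) := Nat.mul_le_mul_right _ (by norm_num)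
    exact Nat.le_of_mul_le_mul_left h3 (by norm_num)

/-- The lower bound. -/
theorem PA_bound (u : ℕ → ℕ) (n s K m : ℕ) (C : MCircuit n s) (o : Fin (n + s)) (hm : 1 ≤ m)
    (hF : C.FanIn m) (hC : C.Computes o (PA u n)) (hpat : C.LocPat (u n) K)
    (h : 2 ^ 399 * lg n ^ 20 * (K * m) ≤ min (u n) n) :
    (2 : ℝ) ^ ((((min (u n) n : ℕ) : ℝ) / ((K : ℝ) * m)) ^ (1 / 20 : ℝ)) ≤ s := by
  have hK : 1 ≤ K := by
    rcases Nat.eq_zero_or_pos K with h0 | h0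
    · exfalso
      subst h0
      have h1 := hpat (fun _ _ => false) (fun _ _ _ => le_rfl) (fun _ _ _ _ => rfl)
      have h2 : (Set.range fun _ : ℕ => C.notVals fun _ => false).encard = 0 := by
        exact le_antisymm (by simpa using h1) bot_le
      rw [Set.encard_eq_zero] at h2
      exact (Set.range_nonempty _).ne_empty h2
    · exact h0
  obtain ⟨e, r, hok, he, hr, hKn, hm2, he6, hM⟩ := params (min_le_right (u n) n) hK hm h
  have h1 := size_at hok he hr hKn hm2 C hF o hC hpat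
  have hKm : (0 : ℝ) < (K : ℝ) * m := by
    have h2 : (0 : ℝ) < K := by exact_mod_cast hK
    have h3 : (0 : ℝ) < m := by exact_mod_cast hm
    positivity
  have h2 : ((min (u n) n : ℕ) : ℝ) / ((K : ℝ) * m) ≤ ((2 : ℝ) ^ (e - 1)) ^ 20 := by
    rw [div_le_iff₀ hKm]
    exact_mod_cast hM
  have h3 : (((min (u n) n : ℕ) : ℝ) / ((K : ℝ) * m)) ^ (1 / 20 : ℝ) ≤ 2 ^ (e - 1) := by
    have h4 : (((2 : ℝ) ^ (e - 1)) ^ 20) ^ (1 / 20 : ℝ) = 2 ^ (e - 1) := by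
      rw [← Real.rpow_natCast ((2 : ℝ) ^ (e - 1)) 20, ← Real.rpow_mul (by positivity)]
      norm_num
    rw [← h4]
    exact Real.rpow_le_rpow (by positivity) h2 (by norm_num)
  obtain ⟨g, hg⟩ : ∃ g : ℕ, g = 2 ^ (e - 1) := ⟨_, rfl⟩
  have hg2 : 2 ^ e = 2 * g := by
    rw [hg, ← pow_succ']
    congr 1
    omega
  have hg32 : 32 ≤ g := by
    rw [hg]
    calc 32 = 2 ^ 5 := by norm_num
      _ ≤ 2 ^ (e - 1) := Nat.pow_le_pow_right (by norm_num) (by omega)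
  have h5 : 2 ^ g ≤ s := by
    rw [hg2] at h1
    have h6 : 2 ^ g * 2 ^ 2 ≤ 2 ^ (2 * g) := by
      rw [← pow_add]
      exact Nat.pow_le_pow_right (by norm_num) (by omega)
    have h7 : 1 ≤ 2 ^ g := Nat.one_le_two_pow
    omega
  have h6 : (2 : ℝ) ^ (e - 1) = ((g : ℕ) : ℝ) := by
    rw [hg]
    push_cast
    rfl
  rw [h6] at h3
  calc (2 : ℝ) ^ ((((min (u n) n : ℕ) : ℝ) / ((K : ℝ) * m)) ^ (1 / 20 : ℝ))
      ≤ (2 : ℝ) ^ ((g : ℕ) : ℝ) := Real.rpow_le_rpow_of_exponent_le (by norm_num) h3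
    _ = (2 : ℝ) ^ (g : ℕ) := Real.rpow_natCast _ _
    _ ≤ s := by exact_mod_cast h5

end Pool.Agent.NG
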