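import Pool.Agent.helper69.LN.BDefs

/-!
# MP_069684_lc: circuits of NOT gates and arbitrary monotone gates
-/

set_option autoImplicit false

namespace Pool.Agent.NG

open Pool.Agent.LNB

/-- A gate that reads from `w` available wires: a NOT gate, or an arbitrary monotone Boolean
function `φ` of `d` wires. -/
inductive MGate (w : ℕ) : Type
  | not (i : Fin w) : MGate w
  | mono (d : ℕ) (φ : (Fin d → Bool) → Bool) (hφ : Monotone φ) (a : Fin d → Fin w) : MGate w

/-- The value of a gate, given the values of the available wires. -/
def MGate.eval {w : ℕ} (v : Fin w → Bool) : MGate w → Bool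
  | MGate.not i => !(v i)
  | MGate.mono _ φ _ a => φ fun j => v (a j)

/-- A NOT gate, or a monotone gate with at most `m` inputs. -/
def MGate.FanIn {w : ℕ} (m : ℕ) : MGate w → Prop
  | MGate.not _ => True
  | MGate.mono d _ _ _ => d ≤ m

/-- `MCircuit n s`: circuits of `s` NOT gates and monotone gates with `n` inputs. The wires are
the `n` inputs and then the `s` gates in their order; each gate reads inputs or earlier gates. -/
inductive MCircuit (n : ℕ) : ℕ → Type
  | nil : MCircuit n 0
  | snoc {s : ℕ} (C : MCircuit n s) (g : MGate (n + s)) : MCircuit n (s + 1)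

/-- The values of all wires of a circuit on the input `x`. -/
def MCircuit.val {n : ℕ} : {s : ℕ} → MCircuit n s → (Fin n → Bool) → (Fin (n + s) → Bool)
  | _, MCircuit.nil, x => x
  | _, MCircuit.snoc C g, x => Fin.snoc (α := fun _ => Bool) (C.val x) (g.eval (C.val x))

/-- The NOT-vector of a circuit on the input `x`: the list of the values of its NOT gates. -/
def MCircuit.notVals {n : ℕ} : {s : ℕ} → MCircuit n s → (Fin n → Bool) → List Bool
  | _, MCircuit.nil, _ => []
  | _, MCircuit.snoc C (MGate.not i), x => C.notVals x ++ [!(C.val x i)]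
  | _, MCircuit.snoc C _, x => C.notVals x

/-- All monotone gates have at most `m` inputs. -/
def MCircuit.FanIn {n : ℕ} (m : ℕ) : {s : ℕ} → MCircuit n s → Prop
  | _, MCircuit.nil => True
  | _, MCircuit.snoc C g => MCircuit.FanIn m C ∧ g.FanIn m

/-- The circuit `C` with output wire `o` computes the property `f` of the inputs. -/
def MCircuit.Computes {n s : ℕ} (C : MCircuit n s) (o : Fin (n + s))
    (f : (Fin n → Bool) → Prop) : Prop :=
  ∀ x, C.val x o = true ↔ f x

/-- At most `K` NOT-vectors along every increasing sequence of inputs which agree on the inputs with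
index at least `u`. -/
def MCircuit.LocPat (u K : ℕ) {n s : ℕ} (C : MCircuit n s) : Prop :=
  ∀ x : ℕ → (Fin n → Bool), Monotone x → (∀ i j, AgreeFrom u (x i) (x j)) →
    (Set.range fun i => C.notVals (x i)).encard ≤ K

end Pool.Agent.NG
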