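import Pool.Agent.helper64.NG.Star

/-!
# MP_069684_lc: walking up through negative blocks (circuits of NOT gates and monotone gates)
-/

set_option autoImplicit false

namespace Pool.Agent.NG

open Pool.Agent.PB Pool.Agent.PC

/-- The walk. `G` places blocks `c 0, c 1, ...` into an input; `f` is the OR of `h` over the first
`K` blocks. A circuit for `f` with at most `K` NOT-vectors along increasing block contents gives a
circuit of monotone gates for `h`. -/
theorem walk {n s K m p : ℕ} (C : MCircuit n s) (hF : C.FanIn m) (o : Fin (n + s))
    (f : (Fin n → Bool) → Prop) (h : BF p)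
    (G : (ℕ → Fin p → Bool) → (Fin n → Bool))
    (hG : ∀ i, (∀ c, G c i = false) ∨ ∃ l k, ∀ c, G c i = c l k)
    (hf : ∀ c, f (G c) ↔ ∃ l < K, h (c l) = true) (h0 : ¬ h (fun _ => false) = true)
    (hcomp : C.Computes o f)
    (hpat : ∀ x : ℕ → (ℕ → Fin p → Bool), Monotone x →
      (Set.range fun i => C.notVals (G (x i))).encard ≤ K) :
    Size (upTo monG (max m 2)) h (s + 3) := by
  classical
  have hGmono : Monotone G := by
    intro c c' hcc i
    rcases hG i with h1 | ⟨l, k, h1⟩
    · rw [h1, h1]
    · rw [h1, h1]; exact hcc l k
  -- valid configurations at level j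
  let Valid : (ℕ → Fin p → Bool) → ℕ → Prop := fun c j =>
    (∀ l < j, ¬ h (c l) = true) ∧ ∀ l, j ≤ l → c l = fun _ => false
  -- a stuck configuration
  have hstuck : ∃ c j, j < K ∧ Valid c j ∧
      ∀ y, ¬ h y = true → C.notVals (G (Function.update c j y)) = C.notVals (G c) := by
    by_contra hcon
    push Not at hcon
    have hch : ∀ c j, ∃ y, (j < K → Valid c j →
        ¬ h y = true ∧ C.notVals (G (Function.update c j y)) ≠ C.notVals (G c)) ∧
        (¬ (j < K ∧ Valid c j) → ¬ h y = true) := by
      intro c j
      by_cases hj : j < K ∧ Valid c j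
      · obtain ⟨y, hy1, hy2⟩ := hcon c j hj.1 hj.2
        exact ⟨y, fun _ _ => ⟨hy1, hy2⟩, fun hh => absurd hj hh⟩
      · exact ⟨fun _ => false, fun h1 h2 => absurd ⟨h1, h2⟩ hj, fun _ => h0⟩
    choose Y hY1 hY2 using hch
    let c : ℕ → (ℕ → Fin p → Bool) := fun j => Nat.rec (fun _ _ => false)
      (fun j cj => Function.update cj j (Y cj j)) j
    have hcs : ∀ j, c (j + 1) = Function.update (c j) j (Y (c j) j) := fun j => rfl
    have hYn : ∀ c j, ¬ h (Y c j) = true := by
      intro c j
      by_cases hj : j < K ∧ Valid c j
      · exact (hY1 c j hj.1 hj.2).1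
      · exact hY2 c j hj
    have hval : ∀ j, Valid (c j) j := by
      intro j
      induction j with
      | zero => exact ⟨fun l hl => absurd hl (Nat.not_lt_zero _), fun l _ => rfl⟩
      | succ j ih =>
        rw [hcs]
        refine ⟨fun l hl => ?_, fun l hl => ?_⟩
        · by_cases hlj : l = j
          · subst hlj
            rw [Function.update_self]
            exact hYn _ _
          · rw [Function.update_of_ne hlj]
            exact ih.1 l (by omega)
        · rw [Function.update_of_ne (by omega)]
          exact ih.2 l (by omega)
    have hcmono : Monotone c := by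
      apply monotone_nat_of_le_succ
      intro j
      rw [hcs]
      intro l
      by_cases hlj : l = j
      · subst hlj
        rw [(hval l).2 l le_rfl, Function.update_self]
        intro k; simp
      · rw [Function.update_of_ne hlj]
    have hx := hpat c hcmono
    have hinj : Set.InjOn (fun j => C.notVals (G (c j))) (Set.Iic K) := by
      have key : ∀ i j, i < j → j ≤ K → C.notVals (G (c i)) ≠ C.notVals (G (c j)) := by
        intro i j hij hjK heq
        have h1 := (conv C (hGmono (hcmono (Nat.le_succ i)))
          (hGmono (hcmono (show i + 1 ≤ j by omega))) heq).1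
        have h2 := (hY1 (c i) i (by omega) (hval i)).2
        rw [← hcs] at h2
        exact h2 h1
      intro i hi j hj hij
      rcases lt_trichotomy i j with hlt | heq | hlt
      · exact absurd hij (key i j hlt hj)
      · exact heq
      · exact absurd hij.symm (key j i hlt hi)
    have h3 : ((fun j => C.notVals (G (c j))) '' Set.Iic K).encard = (K : ℕ∞) + 1 := by
      rw [hinj.encard_image]
      have : (Set.Iic K : Set ℕ) = ((Finset.range (K + 1) : Finset ℕ) : Set ℕ) := by
        ext; simp
      rw [this, Set.encard_coe_eq_coe_finsetCard, Finset.card_range]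
      rfl
    have h4 : ((fun j => C.notVals (G (c j))) '' Set.Iic K).encard ≤ K :=
      (Set.encard_le_encard (Set.image_subset_range _ _)).trans hx
    rw [h3] at h4
    have h5 : ((K + 1 : ℕ) : ℕ∞) ≤ (K : ℕ∞) := by exact_mod_cast h4
    have h6 : K + 1 ≤ K := by exact_mod_cast h5
    omega
  obtain ⟨c, j, hjK, hv, hst⟩ := hstuck
  let X : (Fin p → Bool) → (Fin n → Bool) := fun y => G (Function.update c j y)
  have hX0 : X (fun _ => false) = G c := by
    have : Function.update c j (fun _ => false) = c := by
      rw [← hv.2 j le_rfl]
      exact Function.update_eq_self j c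
    simp only [X, this]
  have hXf : ∀ y, f (X y) ↔ h y = true := by
    intro y
    simp only [X]
    rw [hf]
    constructor
    · rintro ⟨l, hl, hh⟩
      by_cases hlj : l = j
      · subst hlj
        rwa [Function.update_self] at hh
      · rw [Function.update_of_ne hlj] at hh
        rcases lt_or_ge l j with h1 | h1
        · exact absurd hh (hv.1 l h1)
        · rw [hv.2 l h1] at hh
          exact absurd hh h0
    · intro hh
      exact ⟨j, hjK, by rwa [Function.update_self]⟩
  have hXav : ∀ i, (∃ c, (fun y => X y i) = fun _ => c) ∨ ∃ j, (fun y => X y i) = fun y => y j := by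
    intro i
    rcases hG i with h1 | ⟨l, k, h1⟩
    · exact Or.inl ⟨false, by funext y; exact h1 _⟩
    · by_cases hlj : l = j
      · subst hlj
        refine Or.inr ⟨k, ?_⟩
        funext y
        simp only [X]
        rw [h1, Function.update_self]
      · refine Or.inl ⟨c l k, ?_⟩
        funext y
        simp only [X]
        rw [h1, Function.update_of_ne hlj]
  obtain ⟨L, hL, hlen, hk, hb, -⟩ := build C hF (G c) X hXav
  have hP := prog_or hL (hk o) hb
  refine ⟨_, hP, by simp; omega, Or.inl (List.mem_cons.2 (Or.inl ?_))⟩
  have hle : ∀ y, G c ≤ X y := by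
    intro y
    rw [← hX0]
    apply hGmono
    intro l
    by_cases hlj : l = j
    · subst hlj
      rw [Function.update_self, Function.update_self]
      intro k; simp
    · rw [Function.update_of_ne hlj, Function.update_of_ne hlj]
  funext y
  rw [Bool.eq_iff_iff, Bool.or_eq_true]
  constructor
  · intro hy
    by_cases hbad : bad C (G c) (X y) = true
    · exact Or.inr hbad
    · have hbad' : bad C (G c) (X y) = false := by simpa using hbad
      left
      have h1 := eq_of_not_bad C (hle y) hbad'
      rw [(star_of_eq C h1).1]
      exact (hcomp _).2 ((hXf y).2 hy)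
  · intro hD
    by_contra hy
    have h1 := hst y hy
    obtain ⟨h2, h3⟩ := star_of_eq C h1
    rcases hD with hD | hD
    · have h4 : C.val (X y) o = true := by
        rw [← hD]
        exact congrFun h2.symm o
      exact hy ((hXf y).1 ((hcomp _).1 h4))
    · have h4 : bad C (G c) (X y) = false := h3
      rw [h4] at hD
      exact absurd hD (by simp)

end Pool.Agent.NG
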