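import Pool.Agent.helper64.NG.Base
import Pool.Agent.helper64.NG.Walk
import Pool.Agent.helper38.Neg.Lang

/-!
# MP_069684_lc: the language in P/Poly: OR of the base functions over disjoint blocks of all scales
-/

set_option autoImplicit false

namespace Pool.Agent.NG

open Pool.Agent.PB Pool.Agent.PC Pool.Agent.LNB

/-- The admissible parameters. -/
def Ok (e r : ℕ) : Prop := 6 ≤ e ∧ 1 ≤ r ∧ 32 * e * r ≤ 2 ^ e

/-- The constant of the base functions. -/
noncomputable def cB : ℕ := Classical.choose qBSM

/-- The number of variables of the base functions. -/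
def nB (e r : ℕ) : ℕ := 2 ^ (6 * e * (r + 1))

lemma nB_pos (e r : ℕ) : 0 < nB e r := Nat.pow_pos (by norm_num)

lemma exists_base (e r : ℕ) (h : Ok e r) : ∃ h : BF (nB e r), Mono h ∧
    Size std h (cB * (nB e r + 2) ^ 4) ∧
    ∀ s, Size (upTo monG (2 ^ (6 * e * (r - 1)))) h s → 2 ^ (2 ^ e) ≤ s :=
  Classical.choose_spec qBSM e r h.1 h.2.1 h.2.2

open Classical in
/-- The base functions. -/
noncomputable def hB (e r : ℕ) : BF (nB e r) :=
  if h : Ok e r then Classical.choose (exists_base e r h) else fun _ => false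

lemma hB_spec {e r : ℕ} (h : Ok e r) : Mono (hB e r) ∧
    Size std (hB e r) (cB * (nB e r + 2) ^ 4) ∧
    ∀ s, Size (upTo monG (2 ^ (6 * e * (r - 1)))) (hB e r) s → 2 ^ (2 ^ e) ≤ s := by
  unfold hB
  rw [dif_pos h]
  exact Classical.choose_spec (exists_base e r h)

lemma hB_zero {e r : ℕ} (h : Ok e r) : ¬ hB e r (fun _ => false) = true := by
  intro h0
  obtain ⟨h1, -, h3⟩ := hB_spec h
  have h4 : hB e r = fun _ => true := by
    funext x
    exact h1 _ x (fun i hi => absurd hi (by simp)) h0
  have h5 : Prog (upTo monG (2 ^ (6 * e * (r - 1)))) (nB e r) [fun _ => true] :=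
    Prog.step [] (gConst true) (fun i => i.elim0) Prog.nil (const_mem true) (fun i => i.elim0)
  have h6 : Size (upTo monG (2 ^ (6 * e * (r - 1)))) (hB e r) 1 :=
    ⟨_, h5, by simp, Or.inl (by rw [h4]; exact List.mem_cons_self)⟩
  have h7 := h3 1 h6
  have h8 : 1 ≤ 2 ^ e := Nat.one_le_two_pow
  have h9 : 2 ^ 1 ≤ 2 ^ (2 ^ e) := Nat.pow_le_pow_right (by norm_num) h8
  omega

/-- Number of scales. -/
def sc (M : ℕ) : ℕ := Nat.log 2 M + 1

/-- Width of the region of each pair of parameters. -/
def wd (M : ℕ) : ℕ := M / (sc M * sc M)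

/-- First position of the region of the pair `(e, r)`. -/
def bs (M e r : ℕ) : ℕ := (e * sc M + r) * wd M

/-- Reading a position of the input. -/
def get {n : ℕ} (x : Fin n → Bool) (i : ℕ) : Bool := if h : i < n then x ⟨i, h⟩ else false

/-- The content of the `l`-th block of the pair `(e, r)`. -/
def blk (M : ℕ) {n : ℕ} (x : Fin n → Bool) (e r l : ℕ) : Fin (nB e r) → Bool :=
  fun k => get x (bs M e r + l * nB e r + (k : ℕ))

/-- The property of the first `M` bits of the input. -/
def LM (M : ℕ) {n : ℕ} (x : Fin n → Bool) : Prop :=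
  ∃ e r l, Ok e r ∧ e < sc M ∧ r < sc M ∧ (l + 1) * nB e r ≤ wd M ∧ hB e r (blk M x e r l) = true

/-- The language. -/
def PA (u : ℕ → ℕ) : Pool.Agent.helper38.Neg.Lang := fun n x => LM (min (u n) n) x

lemma mono_le {n : ℕ} {f : BF n} (hf : Mono f) {x y : Fin n → Bool} (hxy : x ≤ y)
    (h : f x = true) : f y = true := by
  refine hf x y (fun i hi => ?_) h
  have := hxy i
  rw [hi] at this
  exact Bool.eq_true_of_true_le this

lemma LM_mono (M : ℕ) {n : ℕ} {x y : Fin n → Bool} (hxy : x ≤ y) (h : LM M x) : LM M y := by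
  obtain ⟨e, r, l, h1, h2, h3, h4, h5⟩ := h
  refine ⟨e, r, l, h1, h2, h3, h4, mono_le (hB_spec h1).1 ?_ h5⟩
  intro k
  unfold blk get
  split_ifs with h
  · exact hxy _
  · exact le_rfl

lemma PA_mono (u : ℕ → ℕ) (n : ℕ) : Monotone (PA u n) := fun _ _ hxy h => LM_mono _ hxy h

/-- Placing block contents into an input. -/
def place (M n e r L : ℕ) (c : ℕ → (Fin (nB e r) → Bool)) : Fin n → Bool := fun i =>
  if bs M e r ≤ (i : ℕ) ∧ ((i : ℕ) - bs M e r) / nB e r < L then
    c (((i : ℕ) - bs M e r) / nB e r) ⟨((i : ℕ) - bs M e r) % nB e r, Nat.mod_lt _ (nB_pos e r)⟩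
  else false

lemma region {M e r : ℕ} (he : e < sc M) (hr : r < sc M) : bs M e r + wd M ≤ M := by
  have h1 : (e * sc M + r + 1) ≤ sc M * sc M := by
    have : (e + 1) * sc M ≤ sc M * sc M := Nat.mul_le_mul_right _ he
    have h2 : (e + 1) * sc M = e * sc M + sc M := by ring
    omega
  calc bs M e r + wd M = (e * sc M + r + 1) * wd M := by unfold bs; ring
    _ ≤ (sc M * sc M) * wd M := Nat.mul_le_mul_right _ h1
    _ ≤ M := Nat.mul_div_le _ _

lemma place_block {M n e r L : ℕ} (hM : M ≤ n) (hok : Ok e r) (he : e < sc M) (hr : r < sc M)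
    (hL : L * nB e r ≤ wd M) (c : ℕ → (Fin (nB e r) → Bool)) :
    LM M (place M n e r L c) ↔ ∃ l < L, hB e r (c l) = true := by
  have hN := nB_pos e r
  -- inside the region
  have hin : ∀ l, (l + 1) * nB e r ≤ wd M → ∀ k : Fin (nB e r),
      blk M (place M n e r L c) e r l k = if l < L then c l k else false := by
    intro l hl k
    have hk : (k : ℕ) < nB e r := k.2
    have hreg := region he hr
    have h4 : (l + 1) * nB e r = l * nB e r + nB e r := by ring
    have h1 : bs M e r + l * nB e r + (k : ℕ) < n := by omega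
    unfold blk get
    rw [dif_pos h1]
    unfold place
    have e1 : bs M e r + l * nB e r + (k : ℕ) - bs M e r = nB e r * l + (k : ℕ) := by
      rw [mul_comm (nB e r) l]
      omega
    have e2 : (nB e r * l + (k : ℕ)) / nB e r = l := by
      rw [Nat.mul_add_div hN, Nat.div_eq_of_lt hk, add_zero]
    have e3 : (nB e r * l + (k : ℕ)) % nB e r = (k : ℕ) := by
      rw [Nat.mul_add_mod, Nat.mod_eq_of_lt hk]
    by_cases hlL : l < L
    · rw [if_pos (by
        refine ⟨by simp only []; omega, ?_⟩
        simp only [e1, e2]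
        exact hlL), if_pos hlL]
      simp only [e1, e2, e3]
    · rw [if_neg (by
        rintro ⟨_, h⟩
        simp only [e1, e2] at h
        exact hlL h), if_neg hlL]
  -- outside
  have hout : ∀ e' r' l, (e', r') ≠ (e, r) → e' < sc M → r' < sc M → (l + 1) * nB e' r' ≤ wd M →
      ∀ k : Fin (nB e' r'), blk M (place M n e r L c) e' r' l k = false := by
    intro e' r' l hne he' hr' hl k
    have hk : (k : ℕ) < nB e' r' := k.2
    have hne2 : e' * sc M + r' ≠ e * sc M + r := by
      intro h
      apply hne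
      have hs : 0 < sc M := by unfold sc; omega
      have h1 : (e' * sc M + r') / sc M = e' := by
        rw [mul_comm, Nat.mul_add_div hs, Nat.div_eq_of_lt hr', add_zero]
      have h2 : (e * sc M + r) / sc M = e := by
        rw [mul_comm, Nat.mul_add_div hs, Nat.div_eq_of_lt hr, add_zero]
      have h3 : e' = e := by rw [← h1, h, h2]
      subst h3
      have h4 : r' = r := by omega
      rw [h4]
    unfold blk get
    split_ifs with h1
    · unfold place
      rw [if_neg]
      rintro ⟨h2, h3⟩
      simp only [] at h2 h3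
      have h4 : (l + 1) * nB e' r' = l * nB e' r' + nB e' r' := by ring
      rcases lt_or_gt_of_ne hne2 with hlt | hgt
      · have h5 : (e' * sc M + r' + 1) * wd M ≤ (e * sc M + r) * wd M := Nat.mul_le_mul_right _ hlt
        have h6 : (e' * sc M + r' + 1) * wd M = bs M e' r' + wd M := by unfold bs; ring
        have h7 : (e * sc M + r) * wd M = bs M e r := rfl
        omega
      · have h5 : (e * sc M + r + 1) * wd M ≤ (e' * sc M + r') * wd M := Nat.mul_le_mul_right _ hgt
        have h6 : (e * sc M + r + 1) * wd M = bs M e r + wd M := by unfold bs; ring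
        have h7 : (e' * sc M + r') * wd M = bs M e' r' := rfl
        have h8 : L ≤ (bs M e' r' + l * nB e' r' + (k : ℕ) - bs M e r) / nB e r := by
          rw [Nat.le_div_iff_mul_le hN]
          omega
        omega
    · rfl
  constructor
  · rintro ⟨e', r', l, h0, h1, h2, h3, h4⟩
    by_cases hee : (e', r') = (e, r)
    · obtain ⟨rfl, rfl⟩ := Prod.mk.inj hee
      have hb : blk M (place M n e' r' L c) e' r' l = fun k => if l < L then c l k else false := by
        funext k
        exact hin l h3 k
      rw [hb] at h4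
      by_cases hlL : l < L
      · simp only [if_pos hlL] at h4
        exact ⟨l, hlL, h4⟩
      · simp only [if_neg hlL] at h4
        exact absurd h4 (hB_zero h0)
    · have hb : blk M (place M n e r L c) e' r' l = fun _ => false := by
        funext k
        exact hout e' r' l hee h1 h2 h3 k
      rw [hb] at h4
      exact absurd h4 (hB_zero h0)
  · rintro ⟨l, hl, h4⟩
    have h3 : (l + 1) * nB e r ≤ wd M := (Nat.mul_le_mul_right _ hl).trans hL
    refine ⟨e, r, l, hok, he, hr, h3, ?_⟩
    have hb : blk M (place M n e r L c) e r l = c l := by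
      funext k
      rw [hin l h3 k, if_pos hl]
    rw [hb]
    exact h4

lemma place_cases (M n e r L : ℕ) (i : Fin n) : (∀ c, place M n e r L c i = false) ∨
    ∃ l k, ∀ c, place M n e r L c i = c l k := by
  unfold place
  by_cases h : bs M e r ≤ (i : ℕ) ∧ ((i : ℕ) - bs M e r) / nB e r < L
  · right
    exact ⟨_, _, fun c => by rw [if_pos h]⟩
  · left
    intro c
    rw [if_neg h]

lemma place_monotone (M n e r L : ℕ) : Monotone (place M n e r L) := by
  intro c c' hcc i
  rcases place_cases M n e r L i with h1 | ⟨l, k, h1⟩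
  · rw [h1, h1]
  · rw [h1, h1]; exact hcc l k

lemma place_agree {M n e r L : ℕ} (he : e < sc M) (hr : r < sc M) (hL : L * nB e r ≤ wd M)
    (c : ℕ → (Fin (nB e r) → Bool)) (i : Fin n) (hi : M ≤ (i : ℕ)) : place M n e r L c i = false := by
  unfold place
  rw [if_neg]
  rintro ⟨h1, h2⟩
  have hreg := region he hr
  have h3 : ((i : ℕ) - bs M e r) < L * nB e r := (Nat.div_lt_iff_lt_mul (nB_pos e r)).1 h2
  omega

/-- The size bound for one pair of parameters. -/
theorem size_at {u : ℕ → ℕ} {n s K m e r : ℕ} (hok : Ok e r) (he : e < sc (min (u n) n))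
    (hr : r < sc (min (u n) n)) (hK : K * nB e r ≤ wd (min (u n) n))
    (hm : max m 2 ≤ 2 ^ (6 * e * (r - 1))) (C : MCircuit n s) (hF : C.FanIn m) (o : Fin (n + s))
    (hC : C.Computes o (PA u n)) (hpat : C.LocPat (u n) K) : 2 ^ (2 ^ e) ≤ s + 3 := by
  have h1 := walk C hF o (PA u n) (hB e r) (place (min (u n) n) n e r K)
    (place_cases (min (u n) n) n e r K)
    (place_block (min_le_right _ _) hok he hr hK) (hB_zero hok) hC (by
      intro x hx
      refine hpat (fun i => place (min (u n) n) n e r K (x i))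
        ((place_monotone _ _ _ _ _).comp hx) ?_
      intro i j a ha
      have ha' : min (u n) n ≤ (a : ℕ) := (min_le_left _ _).trans ha
      show place (min (u n) n) n e r K (x i) a = place (min (u n) n) n e r K (x j) a
      rw [place_agree he hr hK (x i) a ha', place_agree he hr hK (x j) a ha'])
  obtain ⟨l, h2, h3, h4⟩ := h1
  have h5 : upTo monG (max m 2) ⊆ upTo monG (2 ^ (6 * e * (r - 1))) :=
    fun g hg => ⟨hg.1, hg.2.trans hm⟩
  exact (hB_spec hok).2.2 (s + 3) ⟨l, Prog.mono_basis h5 h2, h3, h4⟩

end Pool.Agent.NG
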