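import Pool.Agent.helper64.NG.Lang
import Pool.Agent.helper55.NT.Defs

/-!
# MP_069684_lc: the language is in P/Poly
-/

set_option autoImplicit false

namespace Pool.Agent.NG

open Pool.Agent.PB Pool.Agent.PC

lemma size_mono {G : Set Pool.Agent.PB.Gate} {n : ℕ} {f : BF n} {s t : ℕ} (h : Size G f s)
    (hst : s ≤ t) : Size G f t := by
  obtain ⟨l, h1, h2, h3⟩ := h
  exact ⟨l, h1, h2.trans hst, h3⟩

lemma size_false (n : ℕ) : Size std (fun _ : Fin n → Bool => false) 1 := by
  have h5 : Prog std n [fun _ => false] :=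
    Prog.step [] (gConst false) (fun i => i.elim0) Prog.nil (by simp [std]) (fun i => i.elim0)
  exact ⟨_, h5, by simp, Or.inl List.mem_cons_self⟩

lemma size_or {n : ℕ} {f g : BF n} {s t : ℕ} (hf : Size std f s) (hg : Size std g t) :
    Size std (fun x => f x || g x) (s + t + 1) := by
  obtain ⟨l, h1, h2, h3⟩ := hf
  obtain ⟨l', h1', h2', h3'⟩ := hg
  have h4 : Prog std n (l ++ l') := qAPP std n l l' h1 h1'
  have h5 : ∀ i : Fin 2, Av (l ++ l') ((![f, g] : Fin 2 → BF n) i) := by
    intro i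
    fin_cases i
    · exact av_mono h3 (fun u hu => List.mem_append_left _ hu)
    · exact av_mono h3' (fun u hu => List.mem_append_right _ hu)
  have h6 := Prog.step (l ++ l') gOr (![f, g] : Fin 2 → BF n) h4 (by simp [std]) h5
  refine ⟨_, h6, ?_, Or.inl (List.mem_cons.2 (Or.inl rfl))⟩
  simp only [List.length_cons, List.length_append]
  omega

lemma size_any {n t : ℕ} (T : List (BF n)) (h : ∀ f ∈ T, Size std f t) :
    Size std (fun x => T.any fun f => f x) ((t + 1) * T.length + 1) := by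
  induction T with
  | nil =>
    have h1 := size_false n
    simpa using h1
  | cons f T ih =>
    have h1 := size_or (h f List.mem_cons_self) (ih fun g hg => h g (List.mem_cons_of_mem _ hg))
    have h2 : (fun x => (f :: T).any fun f => f x) = fun x => f x || T.any fun f => f x := by
      funext x
      rw [List.any_cons]
    rw [h2]
    refine size_mono h1 ?_
    rw [List.length_cons]
    have : (t + 1) * (T.length + 1) = (t + 1) * T.length + (t + 1) := by ring
    omega

/-- Programs over the standard basis as circuits. -/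
lemma toCircuit {n : ℕ} {l : List (BF n)} (h : Prog std n l) :
    ∃ C : Pool.Agent.helper38.Neg.Circuit n l.length, ∀ f, Av l f → ∃ k, ∀ x, C.val x k = f x := by
  have key : ∀ (L : List (BF n)) (C : Pool.Agent.helper38.Neg.Circuit n L.length)
      (hC : ∀ f, Av L f → ∃ k, ∀ x, C.val x k = f x) (g : Pool.Agent.helper38.Neg.Gate (n + L.length))
      (F : BF n) (_ : ∀ x, g.eval (C.val x) = F x),
      ∀ f, Av (F :: L) f → ∃ k, ∀ x,
        (Pool.Agent.helper38.Neg.Circuit.snoc C g).val x k = f x := by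
    intro L C hC g F hF
    have hold : ∀ f, Av L f → ∃ k, ∀ x,
        (Pool.Agent.helper38.Neg.Circuit.snoc C g).val x k = f x := by
      intro f hf
      obtain ⟨k, hk⟩ := hC f hf
      refine ⟨Fin.castSucc k, fun x => ?_⟩
      rw [← hk x]
      simp [Pool.Agent.helper38.Neg.Circuit.val]
    intro f hf
    rcases hf with hf | hf
    · rcases List.mem_cons.1 hf with rfl | hf
      · refine ⟨Fin.last (n + L.length), fun x => ?_⟩
        rw [← hF x]
        simp [Pool.Agent.helper38.Neg.Circuit.val]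
      · exact hold f (Or.inl hf)
    · exact hold f (Or.inr hf)
  induction h with
  | nil =>
    refine ⟨Pool.Agent.helper38.Neg.Circuit.nil, ?_⟩
    rintro f (hf | ⟨i, rfl⟩)
    · simp at hf
    · exact ⟨i, fun x => rfl⟩
  | step L g a _ hg ha ih =>
    obtain ⟨C, hC⟩ := ih
    rcases hg with rfl | rfl | rfl | rfl | rfl
    · exact ⟨_, key L C hC (Pool.Agent.helper38.Neg.Gate.const false) _ (fun x => rfl)⟩
    · exact ⟨_, key L C hC (Pool.Agent.helper38.Neg.Gate.const true) _ (fun x => rfl)⟩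
    · obtain ⟨i, hi⟩ := hC (a (0 : Fin 1)) (ha (0 : Fin 1))
      exact ⟨_, key L C hC (Pool.Agent.helper38.Neg.Gate.not i) _ (fun x => by
        show (!(C.val x i)) = !(a (0 : Fin 1) x)
        rw [hi])⟩
    · obtain ⟨i, hi⟩ := hC (a (0 : Fin 2)) (ha (0 : Fin 2))
      obtain ⟨j, hj⟩ := hC (a (1 : Fin 2)) (ha (1 : Fin 2))
      exact ⟨_, key L C hC (Pool.Agent.helper38.Neg.Gate.and i j) _ (fun x => by
        show (C.val x i && C.val x j) = (a (0 : Fin 2) x && a (1 : Fin 2) x)
        rw [hi, hj])⟩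
    · obtain ⟨i, hi⟩ := hC (a (0 : Fin 2)) (ha (0 : Fin 2))
      obtain ⟨j, hj⟩ := hC (a (1 : Fin 2)) (ha (1 : Fin 2))
      exact ⟨_, key L C hC (Pool.Agent.helper38.Neg.Gate.or i j) _ (fun x => by
        show (C.val x i || C.val x j) = (a (0 : Fin 2) x || a (1 : Fin 2) x)
        rw [hi, hj])⟩

open Classical in
/-- One term of the language. -/
noncomputable def term (M n : ℕ) (q : ℕ × ℕ × ℕ) : BF n :=
  if Ok q.1 q.2.1 ∧ q.1 < sc M ∧ q.2.1 < sc M ∧ (q.2.2 + 1) * nB q.1 q.2.1 ≤ wd M then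
    fun x => hB q.1 q.2.1 (blk M x q.1 q.2.1 q.2.2)
  else fun _ => false

lemma term_size {M n : ℕ} (hM : M ≤ n) (q : ℕ × ℕ × ℕ) :
    Size std (term M n q) (cB * (n + 2) ^ 4 + 1) := by
  unfold term
  split_ifs with h
  · obtain ⟨h1, h2, h3, h4⟩ := h
    have hreg := region h2 h3
    have e4 : (q.2.2 + 1) * nB q.1 q.2.1 = q.2.2 * nB q.1 q.2.1 + nB q.1 q.2.1 := by ring
    have hs := (hB_spec h1).2.1
    obtain ⟨l', h5, h6, h7⟩ := qSUB std (nB q.1 q.2.1) n (hB q.1 q.2.1) _ []
      (fun k => fun x => blk M x q.1 q.2.1 q.2.2 k) hs Prog.nil (fun k => by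
        right
        have hk : (k : ℕ) < nB q.1 q.2.1 := k.2
        have hlt : bs M q.1 q.2.1 + q.2.2 * nB q.1 q.2.1 + (k : ℕ) < n := by omega
        refine ⟨⟨_, hlt⟩, ?_⟩
        funext x
        unfold blk get
        rw [dif_pos hlt])
    rw [List.append_nil] at h5 h7
    refine ⟨l', h5, h6.trans ?_, h7⟩
    have h8 : nB q.1 q.2.1 ≤ n := by omega
    have h9 : cB * (nB q.1 q.2.1 + 2) ^ 4 ≤ cB * (n + 2) ^ 4 :=
      Nat.mul_le_mul_left _ (Nat.pow_le_pow_left (by omega) 4)
    omega
  · exact size_mono (size_false n) (by omega)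

/-- All triples. -/
def trip (M : ℕ) : List (ℕ × ℕ × ℕ) :=
  List.range (sc M) ×ˢ (List.range (sc M) ×ˢ List.range (wd M))

lemma trip_length (M : ℕ) : (trip M).length = sc M * (sc M * wd M) := by
  unfold trip
  rw [List.length_product, List.length_product, List.length_range, List.length_range]

lemma LM_iff (M n : ℕ) (x : Fin n → Bool) :
    ((trip M).map (term M n)).any (fun f => f x) = true ↔ LM M x := by
  classical
  rw [List.any_eq_true]
  constructor
  · rintro ⟨f, hf, hx⟩
    obtain ⟨q, -, rfl⟩ := List.mem_map.1 hf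
    unfold term at hx
    split_ifs at hx with h
    · exact ⟨q.1, q.2.1, q.2.2, h.1, h.2.1, h.2.2.1, h.2.2.2, hx⟩
  · rintro ⟨e, r, l, h1, h2, h3, h4, h5⟩
    refine ⟨term M n (e, r, l), List.mem_map.2 ⟨(e, r, l), ?_, rfl⟩, ?_⟩
    · unfold trip
      rw [List.mem_product, List.mem_product, List.mem_range, List.mem_range, List.mem_range]
      refine ⟨h2, h3, ?_⟩
      show l < wd M
      have hN := nB_pos e r
      have h6 : (l + 1) * 1 ≤ (l + 1) * nB e r := Nat.mul_le_mul_left _ hN
      omega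
    · unfold term
      rw [if_pos ⟨h1, h2, h3, h4⟩]
      exact h5

lemma sc_sq_wd (M : ℕ) : sc M * (sc M * wd M) ≤ M := by
  rw [← mul_assoc]
  exact Nat.mul_div_le _ _

/-- The language is in P/Poly. -/
theorem PA_poly (u : ℕ → ℕ) : Pool.Agent.helper55.NT.InPPoly (PA u) := by
  refine ⟨Polynomial.C (cB + 2) * (Polynomial.X + 2) ^ 5 + 1, fun n => ?_⟩
  have hM : min (u n) n ≤ n := min_le_right _ _
  have h1 := size_any ((trip (min (u n) n)).map (term (min (u n) n) n)) (t := cB * (n + 2) ^ 4 + 1) (by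
    intro f hf
    obtain ⟨q, -, rfl⟩ := List.mem_map.1 hf
    exact term_size hM q)
  obtain ⟨l, h2, h3, h4⟩ := h1
  obtain ⟨C, hC⟩ := toCircuit h2
  obtain ⟨k, hk⟩ := hC _ h4
  refine ⟨l.length, ?_, C, k, ?_⟩
  · refine h3.trans ?_
    rw [List.length_map, trip_length]
    have h5 := (sc_sq_wd (min (u n) n)).trans hM
    simp only [Polynomial.eval_add, Polynomial.eval_mul, Polynomial.eval_C, Polynomial.eval_pow,
      Polynomial.eval_X, Polynomial.eval_ofNat, Polynomial.eval_one]
    refine Nat.add_le_add_right ?_ 1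
    calc (cB * (n + 2) ^ 4 + 1 + 1) * (sc (min (u n) n) * (sc (min (u n) n) * wd (min (u n) n)))
        ≤ (cB * (n + 2) ^ 4 + 1 + 1) * n := Nat.mul_le_mul_left _ h5
      _ ≤ ((cB + 2) * (n + 2) ^ 4) * (n + 2) := by
          refine Nat.mul_le_mul ?_ (by omega)
          have : 1 ≤ (n + 2) ^ 4 := Nat.one_le_pow _ _ (by omega)
          nlinarith
      _ = (cB + 2) * (n + 2) ^ 5 := by ring
  · intro x
    rw [hk x]
    exact LM_iff _ _ x

end Pool.Agent.NG
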