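import Pool.Agent.helper64.NG.Defs
import Pool.Agent.helper64.PC.Basic

/-!
# MP_069684_lc: freezing the NOT gates of a circuit with monotone gates
-/

set_option autoImplicit false

namespace Pool.Agent.NG

open Pool.Agent.PB Pool.Agent.PC

lemma snoc_le {n s : ℕ} {u v : Fin (n + s) → Bool} {a b : Bool} (huv : u ≤ v) (hab : a ≤ b) :
    (Fin.snoc (α := fun _ => Bool) u a : Fin (n + s + 1) → Bool) ≤
      Fin.snoc (α := fun _ => Bool) v b := by
  intro i
  refine Fin.lastCases ?_ (fun j => ?_) i
  · simpa using hab
  · simpa using huv j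

lemma conv {n s : ℕ} (C : MCircuit n s) {x y w : Fin n → Bool} (hxy : x ≤ y) (hyw : y ≤ w)
    (h : C.notVals x = C.notVals w) :
    C.notVals y = C.notVals x ∧ C.val x ≤ C.val y ∧ C.val y ≤ C.val w := by
  induction C with
  | nil => exact ⟨rfl, hxy, hyw⟩
  | @snoc s C g ih =>
    cases g with
    | mono d φ hφ a =>
      obtain ⟨h1, h2, h3⟩ := ih h
      exact ⟨h1, snoc_le h2 (hφ fun j => h2 (a j)), snoc_le h3 (hφ fun j => h3 (a j))⟩
    | not i =>
      have h' : C.notVals x ++ [!(C.val x i)] = C.notVals w ++ [!(C.val w i)] := h
      obtain ⟨e1, e2⟩ := List.append_inj' h' rfl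
      obtain ⟨h1, h2, h3⟩ := ih e1
      have e3 : C.val x i = C.val w i := by
        have := List.head_eq_of_cons_eq e2
        exact Bool.not_inj this
      have e4 : C.val y i = C.val x i := by
        apply le_antisymm
        · rw [e3]; exact h3 i
        · exact h2 i
      refine ⟨?_, snoc_le h2 ?_, snoc_le h3 ?_⟩
      · change C.notVals y ++ [!(C.val y i)] = C.notVals x ++ [!(C.val x i)]
        rw [h1, e4]
      · change (!(C.val x i)) ≤ !(C.val y i)
        rw [e4]
      · change (!(C.val y i)) ≤ !(C.val w i)
        rw [e4, e3]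

/-- Values of the wires when NOT gates are frozen at their values on the input `b`. -/
def starVal {n : ℕ} : {s : ℕ} → MCircuit n s → (Fin n → Bool) → (Fin n → Bool) →
    (Fin (n + s) → Bool)
  | _, MCircuit.nil, _, x => x
  | _, MCircuit.snoc C (MGate.not i), b, x =>
      Fin.snoc (α := fun _ => Bool) (starVal C b x) (!(C.val b i))
  | _, MCircuit.snoc C (MGate.mono _ φ _ a), b, x =>
      Fin.snoc (α := fun _ => Bool) (starVal C b x) (φ fun j => starVal C b x (a j))

/-- Some NOT gate with value true on `b` has input true in the frozen circuit. -/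
def bad {n : ℕ} : {s : ℕ} → MCircuit n s → (Fin n → Bool) → (Fin n → Bool) → Bool
  | _, MCircuit.nil, _, _ => false
  | _, MCircuit.snoc C (MGate.not i), b, x => bad C b x || (!(C.val b i) && starVal C b x i)
  | _, MCircuit.snoc C (MGate.mono _ _ _ _), b, x => bad C b x

lemma star_mono {n s : ℕ} (C : MCircuit n s) (b : Fin n → Bool) {x y : Fin n → Bool}
    (hxy : x ≤ y) : starVal C b x ≤ starVal C b y := by
  induction C with
  | nil => exact hxy
  | @snoc s C g ih =>
    cases g with
    | mono d φ hφ a => exact snoc_le ih (hφ fun j => ih (a j))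
    | not i => exact snoc_le ih le_rfl

lemma star_self {n s : ℕ} (C : MCircuit n s) (b : Fin n → Bool) : starVal C b b = C.val b := by
  induction C with
  | nil => rfl
  | @snoc s C g ih =>
    cases g <;> simp [starVal, MCircuit.val, MGate.eval, ih]

lemma star_of_eq {n s : ℕ} (C : MCircuit n s) {b x : Fin n → Bool}
    (h : C.notVals x = C.notVals b) : starVal C b x = C.val x ∧ bad C b x = false := by
  induction C with
  | nil => exact ⟨rfl, rfl⟩
  | @snoc s C g ih =>
    cases g with
    | mono d φ hφ a =>
      obtain ⟨h1, h2⟩ := ih h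
      exact ⟨by simp [starVal, MCircuit.val, MGate.eval, h1], h2⟩
    | not i =>
      have h' : C.notVals x ++ [!(C.val x i)] = C.notVals b ++ [!(C.val b i)] := h
      obtain ⟨e1, e2⟩ := List.append_inj' h' rfl
      obtain ⟨h1, h2⟩ := ih e1
      have e3 : C.val x i = C.val b i := by
        have := List.head_eq_of_cons_eq e2
        exact Bool.not_inj this
      refine ⟨by simp [starVal, MCircuit.val, MGate.eval, h1, e3], ?_⟩
      simp [bad, h2, h1, e3]

lemma eq_of_not_bad {n s : ℕ} (C : MCircuit n s) {b x : Fin n → Bool} (hbx : b ≤ x)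
    (h : bad C b x = false) : C.notVals x = C.notVals b := by
  induction C with
  | nil => rfl
  | @snoc s C g ih =>
    cases g with
    | mono d φ hφ a => exact ih h
    | not i =>
      have h' : (bad C b x || (!(C.val b i) && starVal C b x i)) = false := h
      rw [Bool.or_eq_false_iff] at h'
      obtain ⟨h1, h2⟩ := h'
      have e1 := ih h1
      have e2 := (star_of_eq C e1).1
      have e3 : C.val b i ≤ C.val x i := by
        rw [← e2, ← star_self C b]
        exact star_mono C b hbx i
      have e4 : C.val x i = C.val b i := by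
        rw [e2] at h2
        cases hb : C.val b i
        · rw [hb] at h2
          simpa using h2
        · rw [hb] at e3
          exact le_antisymm (by cases C.val x i <;> simp) e3
      change C.notVals x ++ [!(C.val x i)] = C.notVals b ++ [!(C.val b i)]
      rw [e1, e4]

lemma av_mono {p : ℕ} {L L' : List (BF p)} {f : BF p} (h : Av L f) (hL : ∀ g ∈ L, g ∈ L') :
    Av L' f := by
  rcases h with h | h
  · exact Or.inl (hL f h)
  · exact Or.inr h

lemma mono_of_monotone {d : ℕ} {φ : BF d} (h : Monotone φ) : Mono φ := by
  intro x y hxy hx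
  have h1 : x ≤ y := by
    intro i
    have h2 := hxy i
    cases hxi : x i
    · exact Bool.false_le _
    · rw [h2 hxi]
  have h3 := h h1
  rw [hx] at h3
  exact Bool.eq_true_of_true_le h3

lemma const_mem {m : ℕ} (c : Bool) : gConst c ∈ upTo monG m :=
  ⟨fun _ _ _ h => h, Nat.zero_le _⟩

lemma or_mem {m : ℕ} : gOr ∈ upTo monG (max m 2) := by
  refine ⟨?_, le_max_right _ _⟩
  intro x y hxy hx
  have hx' : (x (0 : Fin 2) || x (1 : Fin 2)) = true := hx
  show (y (0 : Fin 2) || y (1 : Fin 2)) = true
  rw [Bool.or_eq_true] at hx' ⊢
  exact hx'.imp (hxy (0 : Fin 2)) (hxy (1 : Fin 2))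

lemma prog_or {m p : ℕ} {L : List (BF p)} (hL : Prog (upTo monG (max m 2)) p L) {f g : BF p}
    (hf : Av L f) (hg : Av L g) : Prog (upTo monG (max m 2)) p ((fun y => f y || g y) :: L) := by
  have h1 : ∀ i : Fin 2, Av L ((![f, g] : Fin 2 → BF p) i) := by
    intro i
    fin_cases i
    · exact hf
    · exact hg
  have h := Prog.step L gOr (![f, g] : Fin 2 → BF p) hL or_mem h1
  exact h

/-- The frozen circuit as a program of monotone gates. -/
lemma build {n s m p : ℕ} (C : MCircuit n s) (hF : C.FanIn m) (b : Fin n → Bool)
    (X : (Fin p → Bool) → (Fin n → Bool))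
    (hX : ∀ i, (∃ c, (fun y => X y i) = fun _ => c) ∨ ∃ j, (fun y => X y i) = fun y => y j) :
    ∃ L : List (BF p), Prog (upTo monG (max m 2)) p L ∧ L.length ≤ s + 2 ∧
      (∀ k, Av L fun y => starVal C b (X y) k) ∧ (Av L fun y => bad C b (X y)) ∧
      ∀ c : Bool, (fun _ => c) ∈ L := by
  induction C with
  | nil =>
    have h1 : Prog (upTo monG (max m 2)) p [fun _ => false] :=
      Prog.step [] (gConst false) (fun i => i.elim0) Prog.nil (const_mem false) (fun i => i.elim0)
    have h2 : Prog (upTo monG (max m 2)) p [fun _ => true, fun _ => false] :=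
      Prog.step _ (gConst true) (fun i => i.elim0) h1 (const_mem true) (fun i => i.elim0)
    have h3 : ∀ c : Bool, (fun _ => c) ∈ ([fun _ => true, fun _ => false] : List (BF p)) := by
      intro c
      cases c <;> simp
    refine ⟨_, h2, by simp, fun k => ?_, Or.inl (h3 false), h3⟩
    rcases hX k with ⟨c, hc⟩ | ⟨j, hj⟩
    · left
      show (fun y => X y k) ∈ _
      rw [hc]
      exact h3 c
    · exact Or.inr ⟨j, hj⟩
  | @snoc s C g ih =>
    obtain ⟨L, hL, hlen, hk, hb, hc⟩ := ih hF.1
    cases g with
    | mono d φ hφ a =>
      have hd : d ≤ m := hF.2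
      have hg : (⟨d, φ⟩ : Pool.Agent.PB.Gate) ∈ upTo monG (max m 2) :=
        ⟨mono_of_monotone hφ, hd.trans (le_max_left _ _)⟩
      have h1 := Prog.step L ⟨d, φ⟩ (fun j : Fin d => fun y => starVal C b (X y) (a j)) hL hg
        (fun j => hk (a j))
      refine ⟨_, h1, by simp; omega, fun k => ?_, av_mono hb (fun f hf => List.mem_cons_of_mem _ hf),
        fun c => List.mem_cons_of_mem _ (hc c)⟩
      refine Fin.lastCases ?_ (fun l => ?_) k
      · have : (fun y => starVal (MCircuit.snoc C (MGate.mono d φ hφ a)) b (X y) (Fin.last (n + s))) =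
            fun y => φ fun j => starVal C b (X y) (a j) := by
          funext y
          simp [starVal]
        exact Or.inl (List.mem_cons.2 (Or.inl this))
      · have : (fun y => starVal (MCircuit.snoc C (MGate.mono d φ hφ a)) b (X y) (Fin.castSucc l)) =
            fun y => starVal C b (X y) l := by
          funext y
          simp [starVal]
        rw [show (fun y => starVal (MCircuit.snoc C (MGate.mono d φ hφ a)) b (X y)
          (Fin.castSucc l)) = _ from this]
        exact av_mono (hk l) (fun f hf => List.mem_cons_of_mem _ hf)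
    | not i =>
      have hstar : ∀ L' : List (BF p), (∀ f ∈ L, f ∈ L') → ∀ k, Av L'
          (fun y => starVal (MCircuit.snoc C (MGate.not i)) b (X y) k) := by
        intro L' hL' k
        refine Fin.lastCases ?_ (fun l => ?_) k
        · have : (fun y => starVal (MCircuit.snoc C (MGate.not i)) b (X y)
              (Fin.last (n + s))) = fun _ => !(C.val b i) := by
            funext y
            simp [starVal]
          have h6 : (fun y => starVal (MCircuit.snoc C (MGate.not i)) b (X y)
              (Fin.last (n + s))) ∈ L' := by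
            rw [this]
            exact hL' _ (hc _)
          exact Or.inl h6
        · have : (fun y => starVal (MCircuit.snoc C (MGate.not i)) b (X y)
              (Fin.castSucc l)) = fun y => starVal C b (X y) l := by
            funext y
            simp [starVal]
          rw [show (fun y => starVal (MCircuit.snoc C (MGate.not i)) b (X y)
            (Fin.castSucc l)) = _ from this]
          exact av_mono (hk l) hL'
      by_cases hbi : C.val b i = true
      · refine ⟨L, hL, by omega, hstar L (fun f hf => hf), ?_, hc⟩
        have : (fun y => bad (MCircuit.snoc C (MGate.not i)) b (X y)) =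
            fun y => bad C b (X y) := by
          funext y
          simp [bad, hbi]
        rw [show (fun y => bad (MCircuit.snoc C (MGate.not i)) b (X y)) = _ from this]
        exact hb
      · have hbi' : C.val b i = false := by simpa using hbi
        refine ⟨_, prog_or hL hb (hk i), by simp; omega, hstar _ (fun f hf =>
          List.mem_cons_of_mem _ hf), ?_, fun c => List.mem_cons_of_mem _ (hc c)⟩
        have : (fun y => bad (MCircuit.snoc C (MGate.not i)) b (X y)) =
            fun y => bad C b (X y) || starVal C b (X y) i := by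
          funext y
          simp [bad, hbi']
        exact Or.inl (List.mem_cons.2 (Or.inl this))

end Pool.Agent.NG
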