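import Pool.Agent.helper64.NG.Bound
import Pool.Agent.helper69.LN.TAll

/-!
# MP_069684_lc: the threshold for the number of NOT gates for the languages of P/Poly
-/

set_option autoImplicit false

namespace Pool.Agent.NG

open Pool.Agent.helper38.Neg Pool.Agent.helper55.NT Pool.Agent.LN

lemma mono_and : Monotone (fun v : Fin 2 → Bool => v 0 && v 1) :=
  fun _ _ h => inf_le_inf (h 0) (h 1)

lemma mono_or : Monotone (fun v : Fin 2 → Bool => v 0 || v 1) :=
  fun _ _ h => sup_le_sup (h 0) (h 1)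

/-- Circuits with gates AND, OR, NOT and constants as circuits with monotone gates. -/
lemma toM {n s : ℕ} (C : Circuit n s) : ∃ C' : MCircuit n s, C'.FanIn 2 ∧
    (∀ x, C'.val x = C.val x) ∧ ∀ x, C'.notVals x = C.notVals x := by
  induction C with
  | nil => exact ⟨MCircuit.nil, trivial, fun x => rfl, fun x => rfl⟩
  | @snoc s C g ih =>
    obtain ⟨C', h1, h2, h3⟩ := ih
    cases g with
    | const b =>
      refine ⟨MCircuit.snoc C' (MGate.mono 0 (fun _ => b) (fun _ _ _ => le_rfl) fun i => i.elim0),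
        ⟨h1, Nat.zero_le _⟩, fun x => ?_, fun x => h3 x⟩
      show Fin.snoc (α := fun _ => Bool) (C'.val x) b = Fin.snoc (α := fun _ => Bool) (C.val x) b
      rw [h2]
    | and i j =>
      refine ⟨MCircuit.snoc C' (MGate.mono 2 (fun v => v 0 && v 1) mono_and ![i, j]),
        ⟨h1, le_rfl⟩, fun x => ?_, fun x => h3 x⟩
      show Fin.snoc (α := fun _ => Bool) (C'.val x) (C'.val x i && C'.val x j) =
        Fin.snoc (α := fun _ => Bool) (C.val x) (C.val x i && C.val x j)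
      rw [h2]
    | or i j =>
      refine ⟨MCircuit.snoc C' (MGate.mono 2 (fun v => v 0 || v 1) mono_or ![i, j]),
        ⟨h1, le_rfl⟩, fun x => ?_, fun x => h3 x⟩
      show Fin.snoc (α := fun _ => Bool) (C'.val x) (C'.val x i || C'.val x j) =
        Fin.snoc (α := fun _ => Bool) (C.val x) (C.val x i || C.val x j)
      rw [h2]
    | not i =>
      refine ⟨MCircuit.snoc C' (MGate.not i), ⟨h1, trivial⟩, fun x => ?_, fun x => ?_⟩
      · show Fin.snoc (α := fun _ => Bool) (C'.val x) (!(C'.val x i)) =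
          Fin.snoc (α := fun _ => Bool) (C.val x) (!(C.val x i))
        rw [h2]
      · show C'.notVals x ++ [!(C'.val x i)] = C.notVals x ++ [!(C.val x i)]
        rw [h2, h3]

/-- Small circuits with few NOT-vectors for the language: the growth condition. -/
theorem growth (u K : ℕ → ℕ) (k e : ℕ) (he : 1 ≤ e)
    (h : ∀ n, ∃ s ≤ 2 ^ (k * lg n ^ e), ∃ (C : Circuit n s) (o : Fin (n + s)),
      C.Computes o (PA u n) ∧ LocPat (u n) (K n) C) :
    ∃ c, ∀ n, min (u n) n ≤ c * lg n ^ (20 * e) * K n := by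
  refine ⟨2 ^ 400 + 2 * k ^ 20, fun n => ?_⟩
  obtain ⟨s, hs, C, o, hC, hp⟩ := h n
  obtain ⟨C', h1, h2, h3⟩ := toM C
  obtain ⟨L, hL⟩ : ∃ L, L = lg n := ⟨_, rfl⟩
  obtain ⟨M, hM⟩ : ∃ M, M = min (u n) n := ⟨_, rfl⟩
  have hL1 : 1 ≤ L := by rw [hL]; exact lg_pos' n
  rw [← hL, ← hM]
  by_cases hbig : 2 ^ 399 * L ^ 20 * (K n * 2) ≤ M
  · have hC' : C'.Computes o (PA u n) := by
      intro x
      rw [h2 x]
      exact hC x
    have hp' : C'.LocPat (u n) (K n) := by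
      intro x hx hx2
      have e1 : (fun i => C'.notVals (x i)) = fun i => C.notVals (x i) := funext fun i => h3 _
      rw [e1]
      exact hp x hx hx2
    have h4 := PA_bound u n s (K n) 2 C' o (by norm_num) h1 hC' hp' (by rw [← hL, ← hM]; exact hbig)
    rw [← hM] at h4
    have hs' : s ≤ 2 ^ (k * L ^ e) := by rw [hL]; exact hs
    have h5 : (2 : ℝ) ^ (((M : ℝ) / ((K n : ℝ) * (2 : ℕ))) ^ (1 / 20 : ℝ)) ≤
        (2 : ℝ) ^ ((k * L ^ e : ℕ) : ℝ) := by
      refine h4.trans ?_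
      rw [Real.rpow_natCast]
      exact_mod_cast hs'
    rw [Real.rpow_le_rpow_left_iff (by norm_num)] at h5
    by_cases hK : K n = 0
    · exfalso
      have h9 : 1 ≤ K n := by
        have h10 := hp (fun _ _ => false) (fun _ _ _ => le_rfl) (fun _ _ _ _ => rfl)
        have h11 : (Set.range fun _ : ℕ => C.notVals (fun _ => false)) = {C.notVals (fun _ => false)} :=
          Set.range_const
        rw [h11, Set.encard_singleton] at h10
        exact_mod_cast h10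
      omega
    have hKr : (0 : ℝ) < (K n : ℝ) * (2 : ℕ) := by
      have : (0 : ℝ) < K n := by exact_mod_cast Nat.pos_of_ne_zero hK
      positivity
    obtain ⟨R, hR⟩ : ∃ R : ℝ, R = (M : ℝ) / ((K n : ℝ) * (2 : ℕ)) := ⟨_, rfl⟩
    have hR0 : 0 ≤ R := by rw [hR]; positivity
    rw [← hR] at h5
    have h6 : R ≤ ((k * L ^ e : ℕ) : ℝ) ^ 20 := by
      have h7 : (R ^ (1 / 20 : ℝ)) ^ 20 ≤ ((k * L ^ e : ℕ) : ℝ) ^ 20 :=
        pow_le_pow_left₀ (by positivity) h5 20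
      have h8 : (R ^ (1 / 20 : ℝ)) ^ 20 = R := by
        rw [← Real.rpow_natCast, ← Real.rpow_mul hR0]
        norm_num
      rwa [h8] at h7
    have h7 : (M : ℝ) ≤ ((k * L ^ e : ℕ) : ℝ) ^ 20 * ((K n : ℝ) * (2 : ℕ)) := by
      rwa [hR, div_le_iff₀ hKr] at h6
    have h8 : M ≤ (k * L ^ e) ^ 20 * (K n * 2) := by exact_mod_cast h7
    calc M ≤ (k * L ^ e) ^ 20 * (K n * 2) := h8
      _ = 2 * k ^ 20 * L ^ (20 * e) * K n := by
          rw [mul_pow, ← pow_mul, mul_comm e 20]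
          ring
      _ ≤ (2 ^ 400 + 2 * k ^ 20) * L ^ (20 * e) * K n :=
          Nat.mul_le_mul_right _ (Nat.mul_le_mul_right _ (Nat.le_add_left _ _))
  · push Not at hbig
    have h4 : L ^ 20 ≤ L ^ (20 * e) := Nat.pow_le_pow_right hL1 (by omega)
    calc M ≤ 2 ^ 399 * L ^ 20 * (K n * 2) := hbig.le
      _ = 2 ^ 400 * L ^ 20 * K n := by
          have e2 : (2 : ℕ) ^ 400 = 2 ^ 399 * 2 := by rw [← pow_succ]
          rw [e2]
          ring
      _ ≤ (2 ^ 400 + 2 * k ^ 20) * L ^ (20 * e) * K n :=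
          Nat.mul_le_mul_right _ (Nat.mul_le_mul (Nat.le_add_right _ _) h4)

/-- Polynomial size: a necessary condition for the languages of P/Poly. -/
theorem poly_growth_P (u r : ℕ → ℕ)
    (h : ∀ A, InPPoly A → (∀ n, Monotone (A n)) → PolyPat u r A) :
    ∃ c, ∀ n, min (u n) n ≤ c * lg n ^ 20 * 2 ^ r n := by
  obtain ⟨p, hp⟩ := h (PA u) (PA_poly u) (PA_mono u)
  obtain ⟨k, hk⟩ := eval_le_two_pow p
  exact growth u (fun n => 2 ^ r n) k 1 le_rfl (fun n => by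
    obtain ⟨s, hs, C, o, hC, hF⟩ := hp n
    exact ⟨s, le_trans hs (hk n), C, o, hC, hF⟩)

theorem inQuasi_of_inPPoly {A : Lang} (h : InPPoly A) : InQuasi A := by
  obtain ⟨p, hp⟩ := h
  obtain ⟨k, hk⟩ := eval_le_two_pow p
  refine ⟨k + 1, fun n => ?_⟩
  obtain ⟨s, hs, C, o, hC⟩ := hp n
  refine ⟨s, (hs.trans (hk n)).trans (Nat.pow_le_pow_right (by norm_num) ?_), C, o, hC⟩
  exact Nat.mul_le_mul (by omega) (lg_pow_le n (by omega))

/-- The upper bound at quasi-polynomial size, for one language. -/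
theorem quasiFew_of (u r : ℕ → ℕ) (hc : ∃ c, ∀ n, min (u n) n ≤ c * lg n ^ c * 2 ^ r n) (A : Lang)
    (hA : InQuasi A) (hm : ∀ n, MonoIn (u n) (A n)) : QuasiFew u r A := by
  obtain ⟨c, hc⟩ := hc
  obtain ⟨k, hk⟩ := hA
  refine ⟨4 * c + k + 24, fun n => ?_⟩
  obtain ⟨s, hs, C, o, hC⟩ := hk n
  have hn : min (u n) n + 1 ≤ (c * lg n ^ c + 1) * 2 ^ r n := by
    have a1 := hc n
    have a2 : 1 ≤ 2 ^ r n := Nat.one_le_two_pow
    rw [add_mul, one_mul]
    omega
  obtain ⟨s', hs', C', o', b1, b2⟩ := TUP_all n s (u n) (c * lg n ^ c + 1) (r n) C o (A n) hC (hm n)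
    (by omega) hn
  refine ⟨s', hs'.trans ?_, C', o', b1, b2⟩
  set K := 4 * c + k + 24 with hK
  set L := lg n with hL
  have hL1 : 1 ≤ L := lg_pos n
  have hn2 : n + 2 < 2 ^ (L + 1) := lt_two_pow_lg n
  have c1 : 18 ≤ 2 ^ 5 := by norm_num
  have c2 : c * L ^ c + 1 ≤ 2 ^ (c * L ^ c + 1) := Nat.lt_two_pow_self.le
  have c3 : s + 5 * n + 6 ≤ 2 ^ (k * L ^ k + (L + 4) + 1) := by
    refine le_trans ?_ (two_pow_add _ _)
    have e : 2 ^ (L + 4) = 8 * 2 ^ (L + 1) := by ring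
    rw [e]
    omega
  have c4 : (n + n + 2) ^ (c * L ^ c + 1 + 2) ≤ 2 ^ ((L + 2) * (c * L ^ c + 1 + 2)) := by
    rw [pow_mul]
    refine Nat.pow_le_pow_left ?_ _
    have e : 2 ^ (L + 2) = 2 * 2 ^ (L + 1) := by ring
    rw [e]
    omega
  have c5 : n + 1 ≤ 2 ^ (L + 1) := by omega
  have c6 : 18 * (c * L ^ c + 1) * (s + 5 * n + 6) * (n + n + 2) ^ (c * L ^ c + 1 + 2) ≤
      2 ^ (5 + (c * L ^ c + 1) + (k * L ^ k + (L + 4) + 1) + (L + 2) * (c * L ^ c + 1 + 2)) :=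
    (Nat.mul_le_mul (Nat.mul_le_mul (Nat.mul_le_mul c1 c2) c3) c4).trans_eq
      (by rw [← pow_add, ← pow_add, ← pow_add])
  have c7 : 18 * (c * L ^ c + 1) * (s + 5 * n + 6) * (n + n + 2) ^ (c * L ^ c + 1 + 2) + n + 1 ≤
      2 ^ ((5 + (c * L ^ c + 1) + (k * L ^ k + (L + 4) + 1) + (L + 2) * (c * L ^ c + 1 + 2)) +
        (L + 1) + 1) := by
    refine le_trans ?_ (two_pow_add _ _)
    omega
  refine c7.trans (Nat.pow_le_pow_right (by norm_num) ?_)
  have a1 : L ^ c ≤ L ^ K := Nat.pow_le_pow_right hL1 (by omega)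
  have a2 : L ^ k ≤ L ^ K := Nat.pow_le_pow_right hL1 (by omega)
  have a3 : L ^ (c + 1) ≤ L ^ K := Nat.pow_le_pow_right hL1 (by omega)
  have a4 : L ≤ L ^ K := Nat.le_self_pow (by omega) _
  have a5 : 1 ≤ L ^ K := Nat.one_le_pow _ _ hL1
  have e1 : (5 + (c * L ^ c + 1) + (k * L ^ k + (L + 4) + 1) + (L + 2) * (c * L ^ c + 1 + 2)) +
      (L + 1) + 1 = 3 * (c * L ^ c) + k * L ^ k + c * L ^ (c + 1) + 5 * L + 19 := by ring
  have e2 : K * L ^ K = 4 * (c * L ^ K) + k * L ^ K + 24 * L ^ K := by rw [hK]; ring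
  rw [e1, e2]
  have d1 : c * L ^ c ≤ c * L ^ K := Nat.mul_le_mul_left _ a1
  have d2 : k * L ^ k ≤ k * L ^ K := Nat.mul_le_mul_left _ a2
  have d3 : c * L ^ (c + 1) ≤ c * L ^ K := Nat.mul_le_mul_left _ a3
  omega

/-- Quasi-polynomial size: the exact threshold for the languages of P/Poly. -/
theorem quasi_tfae_P (u r : ℕ → ℕ) :
    [∃ c, ∀ n, min (u n) n ≤ c * lg n ^ c * 2 ^ r n,
      ∀ A, InQuasi A → (∀ n, MonoIn (u n) (A n)) → QuasiFew u r A,
      ∀ A, InPPoly A → (∀ n, Monotone (A n)) → QuasiPat u r A].TFAE := by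
  tfae_have 1 → 2 := fun h A hA hm => quasiFew_of u r h A hA hm
  tfae_have 2 → 3 := fun h A hA hm =>
    quasiPat_of_few u r A (h A (inQuasi_of_inPPoly hA) fun n => monoIn_of_monotone (u n) (hm n))
  tfae_have 3 → 1 := by
    intro h
    obtain ⟨k, hk⟩ := h (PA u) (PA_poly u) (PA_mono u)
    obtain ⟨c, hc⟩ := growth u (fun n => 2 ^ r n) (k + 1) (k + 1) (by omega) (fun n => by
      obtain ⟨s, hs, C, o, hC, hF⟩ := hk n
      refine ⟨s, hs.trans (Nat.pow_le_pow_right (by norm_num) ?_), C, o, hC, hF⟩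
      exact Nat.mul_le_mul (by omega) (lg_pow_le n (by omega)))
    refine ⟨c + 20 * (k + 1), fun n => (hc n).trans ?_⟩
    refine Nat.mul_le_mul_right _ (Nat.mul_le_mul (by omega) ?_)
    exact Nat.pow_le_pow_right (lg_pos n) (by omega)
  tfae_finish

end Pool.Agent.NG
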